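import Pool.Agent.H82.NTC.Stmts

set_option autoImplicit false

namespace Pool.NTC

open Pool.NET

private theorem xdt_lt (S a b : ℤ) (hS : 0 < S) (h : a < b) : S * a + S ≤ S * b := by
  nlinarith [mul_le_mul_of_nonneg_left (Int.add_one_le_of_lt h) hS.le]

theorem xdt_thm : XDF Ke.T := by
  intro p e g e' g' N N' h h' u hp hp' _ _ _ _ hd v w ha hw h1 h2 h3 h4
  exfalso
  obtain ⟨⟨c, r⟩, k⟩ := w
  obtain ⟨x, y⟩ := v
  have hnu : ¬ u (x, y) := ha.2
  obtain ⟨a1, a2, a3, a4, a5, a6⟩ := hp
  obtain ⟨-, b2, b3, b4, b5, b6⟩ := hp'
  have hS : 0 < p.S := by linarith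
  have e1 : lo p e g h u ((x, y), Ke.T) = p.S * x - e - p.q := by simp only [lo, nx2, fx]
  have e2 : hi p e g h u ((x, y), Ke.T) = p.S * x + e + 2 * e + 3 * p.q := by simp only [hi, fx]
  have e3 : fy p e ((x, y), Ke.T) = p.S * y + 2 * e := by simp only [fy]
  rw [e1] at h1
  rw [e2] at h2
  rw [e3] at h3 h4
  have hc := fun hlt => xdt_lt p.S c x hS hlt
  have hc' := fun hlt => xdt_lt p.S x c hS hlt
  have hr := fun hlt => xdt_lt p.S r y hS hlt
  have hr' := fun hlt => xdt_lt p.S y r hS hlt
  cases k with
  | NW =>
    have f1 : fx p e' g' ((c, r), Ke.NW) = p.S * c - e' := by simp only [fx]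
    rw [f1] at h1 h2
    rcases lt_trichotomy c x with hx | hx | hx
    · have := hc hx
      linarith
    · subst hx
      have h5 : 4 * e' ≤ e := by
        rcases hd with hd | hd
        · linarith
        · exact hd.1
      have f2 : jl p e' h' u ((c, r), Ke.NW) = p.S * r + e' - p.q := by simp only [jl, fy]
      rw [f2] at h3
      by_cases hu1 : u (c, r)
      · have f3 : jh p e' h' u ((c, r), Ke.NW) = p.S * r + p.S - e' + 3 * p.q := by
          simp only [jh, pv2, if_pos hu1, fy]
          ring
        rw [f3] at h4
        rcases lt_trichotomy r y with hy | hy | hy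
        · have := hr hy
          linarith
        · subst hy
          exact hnu hu1
        · have := hr' hy
          linarith
      · have f3 : jh p e' h' u ((c, r), Ke.NW) = p.S * r + 2 * e' + 3 * p.q := by
          simp only [jh, pv2, if_neg hu1, fy]
        rw [f3] at h4
        rcases lt_trichotomy r y with hy | hy | hy
        · have := hr hy
          linarith
        · subst hy
          linarith
        · have := hr' hy
          linarith
    · have := hc' hx
      linarith
  | SE =>
    have f1 : fx p e' g' ((c, r), Ke.SE) = p.S * c + e' := by simp only [fx]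
    rw [f1] at h1 h2
    rcases lt_trichotomy c x with hx | hx | hx
    · have := hc hx
      linarith
    · subst hx
      have h5 : 4 * e' ≤ e := by
        rcases hd with hd | hd
        · linarith
        · exact hd.1
      have f2 : jh p e' h' u ((c, r), Ke.SE) = p.S * r - e' + p.q := by simp only [jh, fy]
      rw [f2] at h4
      by_cases hu1 : u (c, r - 1)
      · have f3 : jl p e' h' u ((c, r), Ke.SE) = p.S * r - p.S + e' - 3 * p.q := by
          simp only [jl, pv2, if_pos hu1, fy]
          ring
        rw [f3] at h3
        rcases lt_trichotomy (r - 1) y with hy | hy | hy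
        · have h6 := xdt_lt p.S (r - 1) y hS hy
          have h7 : p.S * (r - 1) = p.S * r - p.S := by ring
          linarith
        · rw [hy] at hu1
          exact hnu hu1
        · have h6 := xdt_lt p.S y (r - 1) hS hy
          have h7 : p.S * (r - 1) = p.S * r - p.S := by ring
          linarith
      · have f3 : jl p e' h' u ((c, r), Ke.SE) = p.S * r - 2 * e' - 3 * p.q := by
          simp only [jl, pv2, if_neg hu1, fy]
        rw [f3] at h3
        rcases lt_trichotomy r y with hy | hy | hy
        · have := hr hy
          linarith
        · subst hy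
          linarith
        · have := hr' hy
          linarith
    · have := hc' hx
      linarith
  | T =>
    have f1 : fx p e' g' ((c, r), Ke.T) = p.S * c + e' := by simp only [fx]
    have f2 : jl p e' h' u ((c, r), Ke.T) = p.S * r + e' - 3 * p.q := by simp only [jl, pv2, fy]
    have f3 : jh p e' h' u ((c, r), Ke.T) = p.S * r + 2 * e' + p.q := by simp only [jh, fy]
    rw [f1] at h1 h2
    rw [f2] at h3
    rw [f3] at h4
    rcases lt_trichotomy c x with hx | hx | hx
    · have := hc hx
      linarith
    · subst hx
      have h5 : 4 * e' ≤ e := by
        rcases hd with hd | hd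
        · linarith
        · exact hd.1
      rcases lt_trichotomy r y with hy | hy | hy
      · have := hr hy
        linarith
      · subst hy
        linarith
      · have := hr' hy
        linarith
    · have := hc' hx
      linarith
  | B =>
    have f1 : fx p e' g' ((c, r), Ke.B) = p.S * c - e' := by simp only [fx]
    have f2 : jl p e' h' u ((c, r), Ke.B) = p.S * r - 2 * e' - p.q := by simp only [jl, fy]
    have f3 : jh p e' h' u ((c, r), Ke.B) = p.S * r - e' + 3 * p.q := by simp only [jh, pv2, fy]
    rw [f1] at h1 h2
    rw [f2] at h3
    rw [f3] at h4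
    rcases lt_trichotomy c x with hx | hx | hx
    · have := hc hx
      linarith
    · subst hx
      rcases lt_trichotomy r y with hy | hy | hy
      · have := hr hy
        linarith
      · subst hy
        linarith
      · have := hr' hy
        linarith
    · have := hc' hx
      linarith
  | R =>
    have f1 : fx p e' g' ((c, r), Ke.R) = p.S * c + p.M + g' := by simp only [fx]
    rw [f1] at h1 h2
    rcases lt_trichotomy c x with hx | hx | hx
    · have := hc hx
      linarith
    · subst hx
      linarith
    · have := hc' hx
      linarith
  | L =>
    have f1 : fx p e' g' ((c, r), Ke.L) = p.S * c - p.M - g' := by simp only [fx]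
    rw [f1] at h1 h2
    rcases lt_trichotomy c x with hx | hx | hx
    · have := hc hx
      linarith
    · subst hx
      linarith
    · have := hc' hx
      linarith
  | J1 =>
    have f1 : fx p e' g' ((c, r), Ke.J1) = p.S * c + p.M - 5 * p.q := by simp only [fx]
    rw [f1] at h1 h2
    rcases lt_trichotomy c x with hx | hx | hx
    · have := hc hx
      linarith
    · subst hx
      linarith
    · have := hc' hx
      linarith
  | J2 =>
    have f1 : fx p e' g' ((c, r), Ke.J2) = p.S * c + p.M + p.W := by simp only [fx]
    rw [f1] at h1 h2
    rcases lt_trichotomy c x with hx | hx | hx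
    · have := hc hx
      linarith
    · subst hx
      linarith
    · have := hc' hx
      linarith
  | J3 =>
    have f1 : fx p e' g' ((c, r), Ke.J3) = p.S * c - p.M + 5 * p.q := by simp only [fx]
    rw [f1] at h1 h2
    rcases lt_trichotomy c x with hx | hx | hx
    · have := hc hx
      linarith
    · subst hx
      linarith
    · have := hc' hx
      linarith
  | J4 =>
    have f1 : fx p e' g' ((c, r), Ke.J4) = p.S * c - p.M - p.W := by simp only [fx]
    rw [f1] at h1 h2
    rcases lt_trichotomy c x with hx | hx | hx
    · have := hc hx
      linarith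
    · subst hx
      linarith
    · have := hc' hx
      linarith

end Pool.NTC
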